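import Mathlib

/-!
# The Schur test for integral operators on `L ^ p`
-/

set_option autoImplicit false

namespace Pool.Agent.Q81.HM

open MeasureTheory Filter Topology Set
open scoped ENNReal

/-- the Schur test, for nonnegative functions -/
theorem schur {X : Type*} [MeasurableSpace X] {μ : Measure X} [SFinite μ] {p q : ℝ}
    (hpq : p.HolderConjugate q) (K : X → X → ℝ≥0∞) (hK : Measurable (Function.uncurry K))
    (h : X → ℝ≥0∞) (hh : Measurable h) (h0 : ∀ x, h x ≠ 0) (h1 : ∀ x, h x ≠ ∞) (A B : ℝ≥0∞)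
    (hA : ∀ x, ∫⁻ y, K x y * h y ^ q ∂μ ≤ A * h x ^ q)
    (hB : ∀ y, ∫⁻ x, K x y * h x ^ p ∂μ ≤ B * h y ^ p) (F : X → ℝ≥0∞) (hF : Measurable F) :
    ∫⁻ x, (∫⁻ y, K x y * F y ∂μ) ^ p ∂μ ≤ A ^ (p / q) * B * ∫⁻ y, F y ^ p ∂μ := by
  have hp : 0 < p := hpq.pos
  have hq : 0 < q := hpq.symm.pos
  have hpq1 : p⁻¹ + q⁻¹ = 1 := hpq.inv_add_inv_eq_one
  have hKx : ∀ x, Measurable (K x) := fun x => hK.comp measurable_prodMk_left
  have hKy : ∀ y, Measurable fun x => K x y := fun y => hK.comp measurable_prodMk_right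
  -- pointwise bound
  have key : ∀ x, (∫⁻ y, K x y * F y ∂μ) ^ p ≤
      A ^ (p / q) * h x ^ p * ∫⁻ y, K x y * ((h y)⁻¹ ^ p * F y ^ p) ∂μ := by
    intro x
    have e1 : ∫⁻ y, K x y * F y ∂μ =
        ∫⁻ y, ((fun y => K x y ^ (1 / p) * ((h y)⁻¹ * F y)) *
          (fun y => K x y ^ (1 / q) * h y)) y ∂μ := by
      apply lintegral_congr
      intro y
      simp only [Pi.mul_apply]
      have : K x y = K x y ^ (1 / p) * K x y ^ (1 / q) := by
        rw [← ENNReal.rpow_add_of_nonneg _ _ (by positivity) (by positivity), one_div, one_div,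
          hpq1, ENNReal.rpow_one]
      calc K x y * F y = K x y ^ (1 / p) * K x y ^ (1 / q) * F y * ((h y)⁻¹ * h y) := by
            rw [ENNReal.inv_mul_cancel (h0 y) (h1 y), mul_one, ← this]
        _ = _ := by ring
    have e2 := ENNReal.lintegral_mul_le_Lp_mul_Lq μ hpq
      (f := fun y => K x y ^ (1 / p) * ((h y)⁻¹ * F y)) (g := fun y => K x y ^ (1 / q) * h y)
      (((hKx x).pow_const _).mul (hh.inv.mul hF)).aemeasurable
      (((hKx x).pow_const _).mul hh).aemeasurable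
    rw [← e1] at e2
    have e3 : ∫⁻ y, (K x y ^ (1 / p) * ((h y)⁻¹ * F y)) ^ p ∂μ =
        ∫⁻ y, K x y * ((h y)⁻¹ ^ p * F y ^ p) ∂μ := by
      apply lintegral_congr
      intro y
      rw [ENNReal.mul_rpow_of_nonneg _ _ hp.le, ENNReal.mul_rpow_of_nonneg _ _ hp.le,
        ← ENNReal.rpow_mul, one_div_mul_cancel hp.ne', ENNReal.rpow_one]
    have e4 : ∫⁻ y, (K x y ^ (1 / q) * h y) ^ q ∂μ = ∫⁻ y, K x y * h y ^ q ∂μ := by
      apply lintegral_congr
      intro y
      rw [ENNReal.mul_rpow_of_nonneg _ _ hq.le, ← ENNReal.rpow_mul, one_div_mul_cancel hq.ne',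
        ENNReal.rpow_one]
    rw [e3, e4] at e2
    calc (∫⁻ y, K x y * F y ∂μ) ^ p
        ≤ ((∫⁻ y, K x y * ((h y)⁻¹ ^ p * F y ^ p) ∂μ) ^ (1 / p) *
          (∫⁻ y, K x y * h y ^ q ∂μ) ^ (1 / q)) ^ p := ENNReal.rpow_le_rpow e2 hp.le
      _ = (∫⁻ y, K x y * ((h y)⁻¹ ^ p * F y ^ p) ∂μ) * (∫⁻ y, K x y * h y ^ q ∂μ) ^ (p / q) := by
          rw [ENNReal.mul_rpow_of_nonneg _ _ hp.le, ← ENNReal.rpow_mul, ← ENNReal.rpow_mul,
            one_div_mul_cancel hp.ne', ENNReal.rpow_one]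
          congr 2
          ring
      _ ≤ (∫⁻ y, K x y * ((h y)⁻¹ ^ p * F y ^ p) ∂μ) * (A * h x ^ q) ^ (p / q) := by
          gcongr
          exact hA x
      _ = _ := by
          rw [ENNReal.mul_rpow_of_nonneg _ _ (by positivity), ← ENNReal.rpow_mul,
            mul_div_cancel₀ _ hq.ne']
          ring
  calc ∫⁻ x, (∫⁻ y, K x y * F y ∂μ) ^ p ∂μ
      ≤ ∫⁻ x, A ^ (p / q) * h x ^ p * ∫⁻ y, K x y * ((h y)⁻¹ ^ p * F y ^ p) ∂μ ∂μ :=
        lintegral_mono key
    _ = ∫⁻ x, A ^ (p / q) * ∫⁻ y, h x ^ p * (K x y * ((h y)⁻¹ ^ p * F y ^ p)) ∂μ ∂μ := by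
        apply lintegral_congr
        intro x
        rw [mul_assoc, lintegral_const_mul]
        exact (hKx x).mul ((hh.inv.pow_const _).mul (hF.pow_const _))
    _ = A ^ (p / q) * ∫⁻ x, ∫⁻ y, h x ^ p * (K x y * ((h y)⁻¹ ^ p * F y ^ p)) ∂μ ∂μ := by
        rw [lintegral_const_mul]
        apply Measurable.lintegral_prod_right
        apply Measurable.mul
        · exact (hh.comp measurable_fst).pow_const _
        · apply Measurable.mul hK
          exact (((hh.comp measurable_snd).inv).pow_const _).mul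
            ((hF.comp measurable_snd).pow_const _)
    _ = A ^ (p / q) * ∫⁻ y, ∫⁻ x, h x ^ p * (K x y * ((h y)⁻¹ ^ p * F y ^ p)) ∂μ ∂μ := by
        rw [lintegral_lintegral_swap]
        apply Measurable.aemeasurable
        apply Measurable.mul
        · exact (hh.comp measurable_fst).pow_const _
        · apply Measurable.mul hK
          exact (((hh.comp measurable_snd).inv).pow_const _).mul
            ((hF.comp measurable_snd).pow_const _)
    _ = A ^ (p / q) * ∫⁻ y, ((h y)⁻¹ ^ p * F y ^ p) * ∫⁻ x, K x y * h x ^ p ∂μ ∂μ := by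
        congr 1
        apply lintegral_congr
        intro y
        rw [← lintegral_const_mul]
        · apply lintegral_congr
          intro x
          ring
        · exact (hKy y).mul (hh.pow_const _)
    _ ≤ A ^ (p / q) * ∫⁻ y, ((h y)⁻¹ ^ p * F y ^ p) * (B * h y ^ p) ∂μ := by
        gcongr with y
        exact hB y
    _ = A ^ (p / q) * ∫⁻ y, B * F y ^ p ∂μ := by
        congr 1
        apply lintegral_congr
        intro y
        calc (h y)⁻¹ ^ p * F y ^ p * (B * h y ^ p) = B * F y ^ p * ((h y)⁻¹ ^ p * h y ^ p) := by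
              ring
          _ = B * F y ^ p := by
              rw [← ENNReal.mul_rpow_of_nonneg _ _ hp.le, ENNReal.inv_mul_cancel (h0 y) (h1 y),
                ENNReal.one_rpow, mul_one]
    _ = _ := by
        rw [lintegral_const_mul _ (hF.pow_const _), mul_assoc]

/-- the Schur test: the operator -/
theorem schur_op {X : Type*} [MeasurableSpace X] {μ : Measure X} [SFinite μ] {p q : ℝ}
    [Fact (1 ≤ ENNReal.ofReal p)]
    (hpq : p.HolderConjugate q) (k : X → X → ℝ) (hk : Measurable (Function.uncurry k))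
    (hk0 : ∀ x y, 0 ≤ k x y)
    (h : X → ℝ≥0∞) (hh : Measurable h) (h0 : ∀ x, h x ≠ 0) (h1 : ∀ x, h x ≠ ∞) (A B : ℝ≥0∞)
    (hAfin : A < ∞) (hBfin : B < ∞)
    (hA : ∀ x, ∫⁻ y, ENNReal.ofReal (k x y) * h y ^ q ∂μ ≤ A * h x ^ q)
    (hB : ∀ y, ∫⁻ x, ENNReal.ofReal (k x y) * h x ^ p ∂μ ≤ B * h y ^ p) :
    ∃ T : Lp ℂ (ENNReal.ofReal p) μ →L[ℂ] Lp ℂ (ENNReal.ofReal p) μ,
      ∀ f : Lp ℂ (ENNReal.ofReal p) μ, (∀ᵐ x ∂μ, Integrable (fun y => (k x y : ℂ) * f y) μ) ∧
        ⇑(T f) =ᵐ[μ] fun x => ∫ y, (k x y : ℂ) * f y ∂μ := by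
  have hp0 : 0 < p := hpq.pos
  have hq0 : 0 < q := hpq.symm.pos
  have hKmeas : Measurable (Function.uncurry fun x y => ENNReal.ofReal (k x y)) :=
    ENNReal.measurable_ofReal.comp hk
  have hsch := schur hpq (fun x y => ENNReal.ofReal (k x y)) hKmeas h hh h0 h1 A B hA hB
  have hNfin : A ^ (p / q) * B < ∞ :=
    ENNReal.mul_lt_top (ENNReal.rpow_lt_top_of_nonneg (by positivity) hAfin.ne) hBfin
  generalize A ^ (p / q) * B = N at hsch hNfin
  have hpe0 : ENNReal.ofReal p ≠ 0 := by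
    simp only [ne_eq, ENNReal.ofReal_eq_zero, not_le]; exact hp0
  have hpet : ENNReal.ofReal p ≠ ∞ := ENNReal.ofReal_ne_top
  have hpr : (ENNReal.ofReal p).toReal = p := ENNReal.toReal_ofReal hp0.le
  have hF : ∀ f : Lp ℂ (ENNReal.ofReal p) μ,
      ∫⁻ x, (∫⁻ y, ENNReal.ofReal (k x y) * ‖f y‖ₑ ∂μ) ^ p ∂μ ≤ N * ∫⁻ y, ‖f y‖ₑ ^ p ∂μ :=
    fun f => hsch (fun y => ‖f y‖ₑ) (Lp.stronglyMeasurable f).measurable.enorm
  have hfin : ∀ f : Lp ℂ (ENNReal.ofReal p) μ, ∫⁻ y, ‖f y‖ₑ ^ p ∂μ < ∞ := by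
    intro f
    have := (Lp.memLp f).eLpNorm_lt_top
    rw [eLpNorm_eq_lintegral_rpow_enorm_toReal hpe0 hpet, hpr] at this
    by_contra hcon
    rw [not_lt, top_le_iff] at hcon
    rw [hcon, ENNReal.top_rpow_of_pos (by positivity)] at this
    exact lt_irrefl _ this
  have hmeas2 : ∀ f : Lp ℂ (ENNReal.ofReal p) μ,
      StronglyMeasurable fun z : X × X => (k z.1 z.2 : ℂ) * f z.2 := by
    intro f
    apply Measurable.stronglyMeasurable
    exact (Complex.measurable_ofReal.comp hk).mul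
      ((Lp.stronglyMeasurable f).measurable.comp measurable_snd)
  have hmeas1 : ∀ (f : Lp ℂ (ENNReal.ofReal p) μ) (x : X),
      StronglyMeasurable fun y : X => (k x y : ℂ) * f y := fun f x =>
    (hmeas2 f).comp_measurable measurable_prodMk_left
  have henorm : ∀ (f : Lp ℂ (ENNReal.ofReal p) μ) (x y : X),
      ‖(k x y : ℂ) * f y‖ₑ = ENNReal.ofReal (k x y) * ‖f y‖ₑ := by
    intro f x y
    rw [enorm_mul]
    congr 1
    rw [← ofReal_norm, Complex.norm_real, Real.norm_of_nonneg (hk0 _ _)]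
  have hinteg : ∀ f : Lp ℂ (ENNReal.ofReal p) μ,
      ∀ᵐ x ∂μ, Integrable (fun y => (k x y : ℂ) * f y) μ := by
    intro f
    have hlt : ∫⁻ x, (∫⁻ y, ENNReal.ofReal (k x y) * ‖f y‖ₑ ∂μ) ^ p ∂μ < ∞ :=
      lt_of_le_of_lt (hF f) (ENNReal.mul_lt_top hNfin (hfin f))
    have hm : Measurable fun x => (∫⁻ y, ENNReal.ofReal (k x y) * ‖f y‖ₑ ∂μ) ^ p := by
      apply Measurable.pow_const
      apply Measurable.lintegral_prod_right
      exact hKmeas.mul ((Lp.stronglyMeasurable f).measurable.enorm.comp measurable_snd)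
    filter_upwards [ae_lt_top hm hlt.ne] with x hx
    refine ⟨(hmeas1 f x).aestronglyMeasurable, ?_⟩
    rw [hasFiniteIntegral_iff_enorm]
    simp only [henorm]
    by_contra hcon
    rw [not_lt, top_le_iff] at hcon
    rw [hcon, ENNReal.top_rpow_of_pos hp0] at hx
    exact lt_irrefl _ hx
  -- the integral operator
  have hIm : ∀ f : Lp ℂ (ENNReal.ofReal p) μ,
      StronglyMeasurable fun x => ∫ y, (k x y : ℂ) * f y ∂μ :=
    fun f => (hmeas2 f).integral_prod_right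
  have hIn : ∀ f : Lp ℂ (ENNReal.ofReal p) μ,
      eLpNorm (fun x => ∫ y, (k x y : ℂ) * f y ∂μ) (ENNReal.ofReal p) μ ≤
      N ^ (1 / p) * eLpNorm f (ENNReal.ofReal p) μ := by
    intro f
    rw [eLpNorm_eq_lintegral_rpow_enorm_toReal hpe0 hpet,
      eLpNorm_eq_lintegral_rpow_enorm_toReal hpe0 hpet, hpr,
      ← ENNReal.mul_rpow_of_nonneg _ _ (by positivity)]
    apply ENNReal.rpow_le_rpow _ (by positivity)
    refine le_trans (lintegral_mono fun x => ?_) (hF f)
    apply ENNReal.rpow_le_rpow _ hp0.le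
    calc ‖∫ y, (k x y : ℂ) * f y ∂μ‖ₑ ≤ ∫⁻ y, ‖(k x y : ℂ) * f y‖ₑ ∂μ :=
          enorm_integral_le_lintegral_enorm _
      _ = ∫⁻ y, ENNReal.ofReal (k x y) * ‖f y‖ₑ ∂μ := by simp only [henorm]
  have hcfin : N ^ (1 / p) < ∞ := ENNReal.rpow_lt_top_of_nonneg (by positivity) hNfin.ne
  generalize N ^ (1 / p) = c at hIn hcfin
  have hImem : ∀ f : Lp ℂ (ENNReal.ofReal p) μ,
      MemLp (fun x => ∫ y, (k x y : ℂ) * f y ∂μ) (ENNReal.ofReal p) μ := by
    intro f
    refine ⟨(hIm f).aestronglyMeasurable, lt_of_le_of_lt (hIn f) ?_⟩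
    exact ENNReal.mul_lt_top hcfin (Lp.memLp f).eLpNorm_lt_top
  obtain ⟨L, hL⟩ : ∃ L : Lp ℂ (ENNReal.ofReal p) μ →ₗ[ℂ] Lp ℂ (ENNReal.ofReal p) μ,
      ∀ f, L f = (hImem f).toLp _ :=
    ⟨{ toFun := fun f => (hImem f).toLp _
       map_add' := by
        intro f g
        rw [← MemLp.toLp_add]
        apply MemLp.toLp_congr
        filter_upwards [hinteg f, hinteg g] with x hx1 hx2
        simp only [Pi.add_apply]
        rw [← integral_add hx1 hx2]
        apply integral_congr_ae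
        filter_upwards [Lp.coeFn_add f g] with y hy
        rw [hy, Pi.add_apply]
        ring
       map_smul' := by
        intro c f
        rw [RingHom.id_apply, ← MemLp.toLp_const_smul]
        apply MemLp.toLp_congr
        filter_upwards with x
        simp only [Pi.smul_apply, smul_eq_mul]
        rw [← integral_const_mul]
        apply integral_congr_ae
        filter_upwards [Lp.coeFn_smul c f] with y hy
        rw [hy, Pi.smul_apply, smul_eq_mul]
        ring }, fun f => rfl⟩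
  have hLb : ∀ f, ‖L f‖ ≤ c.toReal * ‖f‖ := by
    intro f
    rw [hL f, Lp.norm_toLp, Lp.norm_def, ← ENNReal.toReal_mul]
    apply ENNReal.toReal_mono _ (hIn f)
    exact (ENNReal.mul_lt_top hcfin (Lp.memLp f).eLpNorm_lt_top).ne
  refine ⟨L.mkContinuous _ hLb, fun f => ⟨hinteg f, ?_⟩⟩
  rw [LinearMap.mkContinuous_apply, hL f]
  exact (hImem f).coeFn_toLp

end Pool.Agent.Q81.HM
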