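import Mathlib
import Pool.Agent.Q76.HM.Stm
import Pool.Agent.Q81.HM.Schur

/-!
# Project HM, job OPR: the integral operator with kernel `Kc (ch x y)` is bounded on `L ^ p`
-/

set_option autoImplicit false

namespace Pool.Agent.Q81.HM

open MeasureTheory Filter Topology Set
open Pool.Agent.Q76.HM
open scoped ENNReal

theorem lint_exp_fin {γ C c : ℝ} (hγ : 0 < γ) (hc : |c - 1| ≤ γ) {k : ℝ → ℝ}
    (hk : ∀ τ, k τ ≤ C * (1 + |τ|) * Real.exp (-(2 * γ * |τ|))) (hk0 : ∀ τ, 0 ≤ k τ) :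
    ∫⁻ τ : ℝ, ENNReal.ofReal (Real.exp (-τ) * k τ) * ENNReal.ofReal (Real.exp (c * τ)) < ∞ := by
  have hC : 0 ≤ C := by
    have := hk 0
    have h0 := hk0 0
    simp at this
    linarith
  set D : ℝ := C * (1 + 2 / γ) * (1 + 8 / γ ^ 2) with hD
  have hD0 : 0 ≤ D := by positivity
  have hb : ∀ τ : ℝ, Real.exp (-τ) * k τ * Real.exp (c * τ) ≤ D * (1 + τ ^ 2)⁻¹ := by
    intro τ
    have e0 : 0 ≤ |τ| := abs_nonneg τ
    set x : ℝ := γ / 2 * |τ| with hx
    have hx0 : 0 ≤ x := by positivity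
    have e1 : 1 + |τ| ≤ (1 + 2 / γ) * Real.exp x := by
      have a1 : 1 ≤ Real.exp x := Real.one_le_exp hx0
      have a2 : x ≤ Real.exp x := by linarith [Real.add_one_le_exp x]
      have a3 : |τ| = 2 / γ * x := by
        rw [hx]; field_simp
      rw [a3]
      have : 2 / γ * x ≤ 2 / γ * Real.exp x := by gcongr
      linarith
    have e2 : 1 + τ ^ 2 ≤ (1 + 8 / γ ^ 2) * Real.exp x := by
      have a1 : 1 ≤ Real.exp x := Real.one_le_exp hx0
      have a2 : x ^ 2 / 2 ≤ Real.exp x := by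
        have := Real.quadratic_le_exp_of_nonneg hx0
        linarith
      have a3 : τ ^ 2 = 8 / γ ^ 2 * (x ^ 2 / 2) := by
        rw [hx, mul_pow, sq_abs]; field_simp; ring
      rw [a3]
      have : 8 / γ ^ 2 * (x ^ 2 / 2) ≤ 8 / γ ^ 2 * Real.exp x := by gcongr
      linarith
    have e3 : Real.exp (-τ) * Real.exp (c * τ) ≤ Real.exp x * Real.exp x := by
      rw [← Real.exp_add, ← Real.exp_add]
      apply Real.exp_le_exp.mpr
      have : (c - 1) * τ ≤ γ * |τ| := by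
        calc (c - 1) * τ ≤ |(c - 1) * τ| := le_abs_self _
          _ = |c - 1| * |τ| := abs_mul _ _
          _ ≤ γ * |τ| := by gcongr
      rw [hx]
      linarith
    have e4 : Real.exp (-(2 * γ * |τ|)) = (Real.exp x)⁻¹ ^ 4 := by
      rw [← Real.exp_neg, ← Real.exp_nat_mul]
      congr 1
      rw [hx]
      push_cast
      ring
    have hE : 0 < Real.exp x := Real.exp_pos x
    have hpos : 0 < 1 + τ ^ 2 := by positivity
    calc Real.exp (-τ) * k τ * Real.exp (c * τ)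
        = k τ * (Real.exp (-τ) * Real.exp (c * τ)) := by ring
      _ ≤ (C * (1 + |τ|) * Real.exp (-(2 * γ * |τ|))) * (Real.exp x * Real.exp x) := by
          apply mul_le_mul (hk τ) e3 (by positivity) (by positivity)
      _ ≤ (C * ((1 + 2 / γ) * Real.exp x) * (Real.exp x)⁻¹ ^ 4) * (Real.exp x * Real.exp x) := by
          rw [e4]
          gcongr
      _ = C * (1 + 2 / γ) * (Real.exp x)⁻¹ := by
          field_simp
      _ ≤ C * (1 + 2 / γ) * ((1 + 8 / γ ^ 2) * (1 + τ ^ 2)⁻¹) := by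
          gcongr
          rw [inv_le_iff_one_le_mul₀ hE]
          have : (1 + 8 / γ ^ 2) * (1 + τ ^ 2)⁻¹ * Real.exp x =
            ((1 + 8 / γ ^ 2) * Real.exp x) / (1 + τ ^ 2) := by field_simp
          rw [this, le_div_iff₀ hpos, one_mul]
          exact e2
      _ = D * (1 + τ ^ 2)⁻¹ := by rw [hD]; ring
  have hint : Integrable fun τ : ℝ => D * (1 + τ ^ 2)⁻¹ := integrable_inv_one_add_sq.const_mul D
  calc ∫⁻ τ : ℝ, ENNReal.ofReal (Real.exp (-τ) * k τ) * ENNReal.ofReal (Real.exp (c * τ))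
      = ∫⁻ τ : ℝ, ENNReal.ofReal (Real.exp (-τ) * k τ * Real.exp (c * τ)) := by
        apply lintegral_congr
        intro τ
        rw [← ENNReal.ofReal_mul (mul_nonneg (Real.exp_pos _).le (hk0 τ))]
    _ ≤ ∫⁻ τ : ℝ, ENNReal.ofReal (D * (1 + τ ^ 2)⁻¹) :=
        lintegral_mono fun τ => ENNReal.ofReal_le_ofReal (hb τ)
    _ < ∞ := hint.lintegral_lt_top

theorem horo (h3 : S_HOR) {γ : ℝ} (hγ : 0 < γ) (c : ℝ) (x : ℂ × ℝ) :
    ∫⁻ y, ENNReal.ofReal (Kc γ (ch x y)) * ENNReal.ofReal (Real.exp (c * y.2)) =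
      (∫⁻ τ : ℝ, ENNReal.ofReal (Real.exp (-τ) * kap γ τ) * ENNReal.ofReal (Real.exp (c * τ))) *
        ENNReal.ofReal (Real.exp (c * x.2)) := by
  have h := h3 γ hγ x (fun s => ENNReal.ofReal (Real.exp (c * s)))
    (ENNReal.measurable_ofReal.comp (Real.measurable_exp.comp (measurable_id.const_mul c)))
  refine h.trans ?_
  rw [← lintegral_mul_const']
  · apply lintegral_congr
    intro τ
    rw [mul_assoc, ← ENNReal.ofReal_mul (Real.exp_pos (c * τ)).le, ← Real.exp_add]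
    congr 3
    ring
  · exact ENNReal.ofReal_ne_top

theorem opr (h1 : S_KAP) (h2 : S_ISO) (h3 : S_HOR) : S_OPR := by
  intro p hp _inst
  have hp0 : 0 < p := by linarith
  have hγ : 0 < 1 - 2 / p := by
    have : 2 / p < 1 := (div_lt_one hp0).mpr hp
    linarith
  obtain ⟨γ, hγdef⟩ : ∃ γ : ℝ, γ = 1 - 2 / p := ⟨_, rfl⟩
  rw [← hγdef] at hγ ⊢
  obtain ⟨-, hkpos, -, ⟨C, hkC⟩, hKm, hK0, -⟩ := h1 γ hγ
  obtain ⟨-, -, -, -, -, -, -, -, -, hsymm, -, hch, -, -⟩ := h2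
  obtain ⟨q, hq⟩ : ∃ q : ℝ, q = p / (p - 1) := ⟨_, rfl⟩
  have hp1 : 1 < p := by linarith
  have hpq : p.HolderConjugate q := by
    rw [hq]; exact Real.HolderConjugate.conjExponent hp1
  have hq0 : 0 < q := hpq.symm.pos
  obtain ⟨a, ha⟩ : ∃ a : ℝ, a = (1 - γ) / q := ⟨_, rfl⟩
  have haq : a * q = 1 - γ := by
    rw [ha]; exact div_mul_cancel₀ _ hq0.ne'
  have hap : a * p = 1 + γ := by
    have hpm : p - 1 ≠ 0 := by linarith
    rw [ha, hq, hγdef]
    field_simp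
    ring
  have hKr : Measurable (Function.uncurry fun x y : ℂ × ℝ => Kc γ (ch x y)) :=
    hKm.comp hch.measurable
  have hhm : Measurable fun x : ℂ × ℝ => ENNReal.ofReal (Real.exp (a * x.2)) :=
    ENNReal.measurable_ofReal.comp (Real.measurable_exp.comp (measurable_snd.const_mul a))
  have hpow : ∀ (x : ℂ × ℝ) (r : ℝ), ENNReal.ofReal (Real.exp (a * x.2)) ^ r =
      ENNReal.ofReal (Real.exp (a * r * x.2)) := by
    intro x r
    rw [ENNReal.ofReal_rpow_of_pos (Real.exp_pos _), ← Real.exp_mul]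
    congr 2
    ring
  have hAfin : ∫⁻ τ : ℝ, ENNReal.ofReal (Real.exp (-τ) * kap γ τ) *
      ENNReal.ofReal (Real.exp ((1 - γ) * τ)) < ∞ := by
    apply lint_exp_fin hγ _ hkC (fun τ => (hkpos τ).le)
    rw [show (1 - γ - 1 : ℝ) = -γ by ring, abs_neg, abs_of_pos hγ]
  have hBfin : ∫⁻ τ : ℝ, ENNReal.ofReal (Real.exp (-τ) * kap γ τ) *
      ENNReal.ofReal (Real.exp ((1 + γ) * τ)) < ∞ := by
    apply lint_exp_fin hγ _ hkC (fun τ => (hkpos τ).le)
    rw [show (1 + γ - 1 : ℝ) = γ by ring, abs_of_pos hγ]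
  obtain ⟨T, hT⟩ := schur_op (μ := (volume : Measure (ℂ × ℝ))) hpq
    (fun x y => Kc γ (ch x y)) hKr (fun x y => hK0 _)
    (fun x => ENNReal.ofReal (Real.exp (a * x.2))) hhm
    (fun x => by
      simp only [ne_eq, ENNReal.ofReal_eq_zero, not_le]
      exact Real.exp_pos _) (fun x => ENNReal.ofReal_ne_top) _ _ hAfin hBfin
    (fun x => by
      simp only [hpow, haq]
      exact (horo h3 hγ (1 - γ) x).le)
    (fun y => by
      simp only [hpow, hap, fun x => hsymm x y]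
      exact (horo h3 hγ (1 + γ) y).le)
  refine ⟨ContinuousLinearMap.id ℂ _ - T, fun f => ⟨(hT f).1, ?_⟩⟩
  rw [_root_.sub_apply, ContinuousLinearMap.id_apply]
  filter_upwards [Lp.coeFn_sub f (T f), (hT f).2] with x hx1 hx2
  rw [hx1, Pi.sub_apply, hx2]

end Pool.Agent.Q81.HM
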